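import Pool.Agent.H35.Sol.Main

/-!
The soluble graph of the alternating groups of degree `q` and `q + 1`, for every prime
`q = 3 mod 4`, `q ≥ 7`, has diameter at most four.
-/

set_option autoImplicit false

namespace Pool.Agent.Results.MP_75db24_al.AlternatingFour

/-- For every prime `q = 3 mod 4` with `q ≥ 7` and `n = q` or `n = q + 1`, the soluble graph of
the alternating group of degree `n` has (extended) diameter at most four. -/
theorem result {q : ℕ} (hq : q.Prime) (h4 : q % 4 = 3) (h7 : 7 ≤ q) {n : ℕ}
    (hn : n = q ∨ n = q + 1) :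
    (H35Sol.solGraph (alternatingGroup (Fin n))).ediam ≤ 4 :=
  H35Sol.ediam_le hq h4 h7 hn

end Pool.Agent.Results.MP_75db24_al.AlternatingFour
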