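import Pool.Agent.H82.SG.Quo

/-!
# MP_75db24_al: the soluble graph of the groups between `PSL_n(q)` and `PGL_n(q)`

Theorem: let `n ≥ 3`, `F` a finite field, `SL_n(F) ≤ H ≤ GL_n(F)` and `G = H / Z(H)` (these are exactly the
groups `PSL_n(F) ≤ G ≤ PGL_n(F)`).  Then the soluble graph of `G` has diameter at most `4`.

An element `x` without invariant subspaces lies in the multiplicative group of a field `F[x]` of order `q^n`, and
the square `a` of a Frobenius map fixes a given vector `v` and normalizes `F[x]^*`, so `⟨x, a⟩` and `⟨a, t⟩` are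
soluble for every transvection `t` with centre `v`.  An element with an invariant subspace `W` normalizes the
unipotent radical of the stabiliser of `W`.  Any two elements reach in this way a common transvection.
-/

set_option autoImplicit false

namespace Pool.Agent.Results.MP_75db24_al.LinearGroups

/-- The soluble graph on the nonidentity elements of `G`: different `x`, `y` are adjacent if `⟨x, y⟩` is
soluble. -/
def solubleGraph (G : Type) [Group G] : SimpleGraph {g : G // g ≠ 1} where
  Adj x y := x ≠ y ∧ Group.IsSolvable (Subgroup.closure {(x : G), (y : G)} : Subgroup G)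
  symm := ⟨fun _ _ h => ⟨h.1.symm, H82SG.Sol.symm h.2⟩⟩
  loopless := ⟨fun _ h => h.1 rfl⟩

theorem edist_le_one {G : Type} [Group G] {x y : {g : G // g ≠ 1}}
    (h : H82SG.Sol (x : G) (y : G)) : (solubleGraph G).edist x y ≤ 1 := by
  by_cases hxy : x = y
  · subst hxy
    rw [SimpleGraph.edist_self]
    exact zero_le_one
  · have h1 : (solubleGraph G).Adj x y := ⟨hxy, h⟩
    exact (SimpleGraph.edist_eq_one_iff_adj.2 h1).le

/-- **Theorem.** -/
theorem result (F : Type) [Field F] [Finite F] (n : ℕ) (hn : 3 ≤ n)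
    (H : Subgroup (Matrix.GeneralLinearGroup (Fin n) F))
    (hH : ∀ g : Matrix.GeneralLinearGroup (Fin n) F,
      Matrix.GeneralLinearGroup.det g = 1 → g ∈ H) :
    (solubleGraph (H ⧸ Subgroup.center H)).ediam ≤ 4 := by
  refine SimpleGraph.ediam_le_of_edist_le fun x y => ?_
  obtain ⟨a, b, c, ha, hb, hc, h1, h2, h3, h4⟩ := H82SG.quo_path hn H hH x.1 y.1
  have e1 := edist_le_one (x := x) (y := ⟨a, ha⟩) h1
  have e2 := edist_le_one (x := ⟨a, ha⟩) (y := ⟨b, hb⟩) h2
  have e3 := edist_le_one (x := ⟨b, hb⟩) (y := ⟨c, hc⟩) h3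
  have e4 := edist_le_one (x := ⟨c, hc⟩) (y := y) h4
  have t1 := (solubleGraph (H ⧸ Subgroup.center H)).edist_triangle (u := x) (v := ⟨a, ha⟩) (w := y)
  have t2 := (solubleGraph (H ⧸ Subgroup.center H)).edist_triangle (u := ⟨a, ha⟩) (v := ⟨b, hb⟩)
    (w := y)
  have t3 := (solubleGraph (H ⧸ Subgroup.center H)).edist_triangle (u := ⟨b, hb⟩) (v := ⟨c, hc⟩)
    (w := y)
  have t4 := t1.trans (add_le_add e1 (t2.trans (add_le_add e2 (t3.trans (add_le_add e3 e4)))))
  have t5 : (1 : ℕ∞) + (1 + (1 + 1)) = 4 := by norm_num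
  rwa [t5] at t4

end Pool.Agent.Results.MP_75db24_al.LinearGroups
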